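import Pool.Agent.X100.Mx.Abc

/-!
# Tuples on rational curves counted by their radical, without condition on the height
-/

set_option autoImplicit false

namespace Pool.Agent.X100.Nt

open Finset Polynomial Pool.Agent.W4.CF Pool.Agent.W4.VC Pool.Agent.TH498.KB Pool.Agent.TH498.HF
open Pool.Agent.X100.Mx (wt mixed radp_le_rad)

/-- a bound for the number of the coprime pairs with a small radical of the form `∏ f` -/
def Cnt {ι : Type} [Fintype ι] (f : ι → ℤ[X]) (d : ι → ℕ) (θ : ℝ) : Prop :=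
  ∀ m : ℕ, 1 ≤ m → ∃ (C : ℝ) (e : ℕ), 0 < C ∧ ∀ R : ℝ, 1 ≤ R → ∀ s : Finset (ℤ × ℤ),
    (∀ p ∈ s, IsCoprime p.1 p.2 ∧
      hom (∏ k, f k) (∑ k, d k) p.1 p.2 ≠ 0 ∧
      (radp m (hom (∏ k, f k) (∑ k, d k) p.1 p.2).natAbs : ℝ) ≤ R) →
    (s.card : ℝ) ≤ C * R ^ θ * (1 + Real.log R) ^ e

/-- polynomials without a common complex zero generate the unit ideal -/
theorem span_top {κ : Type} (P : κ → ℤ[X]) (h : ∀ z : ℂ, ∃ j, aeval z (P j) ≠ 0) :
    Ideal.span (Set.range fun j => (P j).map (Int.castRingHom ℚ)) = ⊤ := by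
  by_contra hne
  obtain ⟨g, hg⟩ : ∃ g : ℚ[X], Ideal.span (Set.range fun j => (P j).map (Int.castRingHom ℚ)) =
      Ideal.span {g} := by
    obtain ⟨⟨g, hg⟩⟩ := IsPrincipalIdealRing.principal
      (Ideal.span (Set.range fun j => (P j).map (Int.castRingHom ℚ)))
    exact ⟨g, hg⟩
  have hgu : ¬ IsUnit g := by
    intro hu
    apply hne
    rw [hg, Ideal.span_singleton_eq_top]
    exact hu
  have hdvd : ∀ j, g ∣ (P j).map (Int.castRingHom ℚ) := by
    intro j
    have h1 : (P j).map (Int.castRingHom ℚ) ∈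
        Ideal.span (Set.range fun j => (P j).map (Int.castRingHom ℚ)) :=
      Ideal.subset_span ⟨j, rfl⟩
    rw [hg] at h1
    exact Ideal.mem_span_singleton.1 h1
  have hroot : ∃ z : ℂ, aeval z g = 0 := by
    by_cases hg0 : g = 0
    · exact ⟨0, by rw [hg0]; simp⟩
    · have hdeg : (g.map (algebraMap ℚ ℂ)).degree ≠ 0 := by
        rw [degree_map]
        intro h0
        exact hgu ((isUnit_iff_degree_eq_zero).2 h0)
      obtain ⟨z, hz⟩ := Complex.exists_root (f := g.map (algebraMap ℚ ℂ)) (by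
        rw [degree_map]
        rcases (natDegree_pos_iff_degree_pos (p := g)) with h1
        rw [degree_map] at hdeg
        exact lt_of_le_of_ne (by
          rw [degree_eq_natDegree hg0]
          exact_mod_cast Nat.zero_le _) (Ne.symm hdeg))
      exact ⟨z, by rwa [IsRoot.def, eval_map_algebraMap] at hz⟩
  obtain ⟨z, hz⟩ := hroot
  obtain ⟨j, hj⟩ := h z
  apply hj
  obtain ⟨w, hw⟩ := hdvd j
  have h1 : aeval z ((P j).map (Int.castRingHom ℚ)) = aeval z (P j) := by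
    have : (Int.castRingHom ℚ) = algebraMap ℤ ℚ := rfl
    rw [this, aeval_map_algebraMap]
  rw [← h1, hw, map_mul, hz, zero_mul]

theorem hom_sum {κ : Type} (s : Finset κ) (P : κ → ℤ[X]) (n : ℕ) (a b : ℤ) :
    hom (∑ j ∈ s, P j) n a b = ∑ j ∈ s, hom (P j) n a b := by
  classical
  induction s using Finset.induction_on with
  | empty => simp [hom]
  | insert j s hj ih => rw [sum_insert hj, sum_insert hj, hom_add, ih]

/-- the common divisors of the values of forms without a common zero -/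
theorem bezN {κ : Type} [Fintype κ] (P : κ → ℤ[X]) (n : ℕ) (hn : 1 ≤ n)
    (hP : ∀ j, (P j).natDegree ≤ n) (hlead : ∃ j, (P j).natDegree = n)
    (h : ∀ z : ℂ, ∃ j, aeval z (P j) ≠ 0) :
    ∃ M : ℕ, 1 ≤ M ∧ ∀ a b : ℤ, IsCoprime a b → ∀ x : ℤ, (∀ j, x ∣ hom (P j) n a b) → x ∣ M := by
  classical
  have h1 : (1 : ℚ[X]) ∈ Ideal.span (Set.range fun j => (P j).map (Int.castRingHom ℚ)) := by
    rw [span_top P h]
    trivial
  obtain ⟨c, hc⟩ := Ideal.mem_span_range_iff_exists_fun.1 h1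
  choose D G hD hG using fun j => clear (c j)
  set N : ℤ := ∏ j, D j with hN
  have hN0 : N ≠ 0 := prod_ne_zero_iff.2 fun j _ => hD j
  set U : κ → ℤ[X] := fun j => C (∏ k ∈ univ.erase j, D k) * G j with hU
  have hid : ∑ j, U j * P j = C N := by
    apply Polynomial.map_injective (Int.castRingHom ℚ) Int.cast_injective
    rw [Polynomial.map_sum, map_C]
    have h2 : ∀ j, (U j * P j).map (Int.castRingHom ℚ) =
        C ((Int.castRingHom ℚ) N) * (c j * (P j).map (Int.castRingHom ℚ)) := by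
      intro j
      rw [hU]
      simp only [Polynomial.map_mul, hG, map_C]
      have h3 : C ((Int.castRingHom ℚ) N) =
          C ((Int.castRingHom ℚ) (∏ k ∈ univ.erase j, D k)) * C ((D j : ℚ)) := by
        rw [hN, ← Finset.prod_erase_mul univ D (mem_univ j), map_mul, C_mul]
        rfl
      rw [h3]
      ring
    rw [sum_congr rfl fun j _ => h2 j, ← mul_sum, hc, mul_one]
  obtain ⟨K, hK⟩ : ∃ K : ℕ, ∀ j, (U j).natDegree ≤ K :=
    ⟨∑ j, (U j).natDegree, fun j => single_le_sum (f := fun j => (U j).natDegree)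
      (fun _ _ => Nat.zero_le _) (mem_univ j)⟩
  have hmul := Pool.Agent.W505.VC.t_HOM.1
  have hidh : ∀ a b : ℤ, ∑ j, hom (U j) K a b * hom (P j) n a b = N * b ^ (K + n) := by
    intro a b
    rw [← hom_C N (K + n) a b, ← hid, hom_sum]
    exact sum_congr rfl fun j _ => (hmul (U j) (P j) K n (hK j) (hP j) a b).symm
  obtain ⟨j0, hj0⟩ := hlead
  have hlc : (P j0).coeff n ≠ 0 := by
    rw [← hj0]
    intro h0
    have h2 : P j0 = 0 := leadingCoeff_eq_zero.mp h0
    rw [h2, natDegree_zero] at hj0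
    omega
  set e : ℕ := K + n with he
  refine ⟨(N * (P j0).coeff n ^ e).natAbs, ?_, ?_⟩
  · have : N * (P j0).coeff n ^ e ≠ 0 := mul_ne_zero hN0 (pow_ne_zero _ hlc)
    exact Nat.one_le_iff_ne_zero.mpr (Int.natAbs_ne_zero.mpr this)
  intro a b hab x hx
  have htop := hom_top (P j0) n hn a b
  have k1 : x ∣ N * b ^ e := by
    rw [← hidh a b]
    exact dvd_sum fun j _ => Dvd.dvd.mul_left (hx j) _
  have k2 : x ∣ N * ((P j0).coeff n * a ^ n) ^ e := by
    have e1 : ((P j0).coeff n * a ^ n) = hom (P j0) n a b - b * hom (P j0) (n - 1) a b := by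
      rw [htop]; ring
    have e2 : x ∣ ((P j0).coeff n * a ^ n) ^ e - (-(b * hom (P j0) (n - 1) a b)) ^ e := by
      refine dvd_trans ?_ (sub_dvd_pow_sub_pow _ _ e)
      rw [e1]
      have : hom (P j0) n a b - b * hom (P j0) (n - 1) a b - -(b * hom (P j0) (n - 1) a b) =
          hom (P j0) n a b := by ring
      rw [this]
      exact hx j0
    have e3 : N * ((P j0).coeff n * a ^ n) ^ e =
        N * (((P j0).coeff n * a ^ n) ^ e - (-(b * hom (P j0) (n - 1) a b)) ^ e) +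
        N * b ^ e * (-(hom (P j0) (n - 1) a b)) ^ e := by
      have : (-(b * hom (P j0) (n - 1) a b)) ^ e = b ^ e * (-(hom (P j0) (n - 1) a b)) ^ e := by
        rw [← mul_pow]
        ring
      rw [this]
      ring
    rw [e3]
    exact dvd_add (Dvd.dvd.mul_left e2 _) (Dvd.dvd.mul_right k1 _)
  have hcop : IsCoprime (a ^ (n * e)) (b ^ e) := hab.pow
  obtain ⟨u, v, huv⟩ := hcop
  have k3 : x ∣ N * (P j0).coeff n ^ e := by
    have e4 : N * (P j0).coeff n ^ e = u * (N * ((P j0).coeff n * a ^ n) ^ e) +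
        v * (P j0).coeff n ^ e * (N * b ^ e) := by
      calc N * (P j0).coeff n ^ e = N * (P j0).coeff n ^ e * (u * a ^ (n * e) + v * b ^ e) := by
            rw [huv, mul_one]
        _ = _ := by rw [mul_pow, ← pow_mul]; ring
    rw [e4]
    exact dvd_add (Dvd.dvd.mul_left k2 _) (Dvd.dvd.mul_left k1 _)
  exact Int.dvd_natAbs.2 k3

/-- the radical of a product with the primes dividing `M` removed -/
theorem radp_le_rad' {M N : ℕ} {x y g : ℤ} (hy : y ≠ 0) (hg : g ∣ (M : ℤ)) (h : x ∣ g ^ N * y) :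
    radp M x.natAbs ≤ ∏ p ∈ y.natAbs.primeFactors, p := by
  unfold radp
  refine Finset.prod_le_prod_of_subset_of_one_le' ?_ fun p hp _ =>
    (Nat.prime_of_mem_primeFactors hp).one_le
  intro p hp
  obtain ⟨h1, h2⟩ := mem_filter.mp hp
  have hpp := Nat.prime_of_mem_primeFactors h1
  have hpx : (p : ℤ) ∣ x := Int.natCast_dvd.mpr (Nat.dvd_of_mem_primeFactors h1)
  have hpZ : Prime (p : ℤ) := Nat.prime_iff_prime_int.mp hpp
  refine Nat.mem_primeFactors.mpr ⟨hpp, ?_, Int.natAbs_ne_zero.mpr hy⟩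
  rcases hpZ.dvd_or_dvd (hpx.trans h) with h3 | h3
  · exact absurd (Int.natCast_dvd_natCast.mp ((hpZ.dvd_of_dvd_pow h3).trans hg)) h2
  · exact Int.natCast_dvd.mp h3

/-- **tuples on a rational curve** -/
theorem tuples {ι κ : Type} [Fintype ι] [DecidableEq ι] [Fintype κ] (P : κ → ℤ[X])
    (n : ℕ) (hn : 1 ≤ n) (hP : ∀ j, (P j).natDegree ≤ n) (hlead : ∃ j, (P j).natDegree = n)
    (h : ∀ z : ℂ, ∃ j, aeval z (P j) ≠ 0)
    (f : ι → ℤ[X]) (d : ι → ℕ) (hf : ∀ i, (f i).natDegree ≤ d i) (G : ℤ[X])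
    (hG : (∏ i, f i) * G = ∏ j, P j) (hGd : G.natDegree + ∑ i, d i ≤ Fintype.card κ * n)
    {θ : ℝ} (hcnt : Cnt f d θ) :
    ∃ (C : ℝ) (e : ℕ), 0 < C ∧ ∀ R : ℝ, 1 ≤ R → ∀ S : Finset (κ → ℤ),
      (∀ x ∈ S, (∀ g : ℤ, (∀ j, g ∣ x j) → IsUnit g) ∧ ∏ j, x j ≠ 0 ∧
        (∃ s t : ℤ, IsCoprime s t ∧ ∀ i j, x i * hom (P j) n s t = x j * hom (P i) n s t) ∧
        ((∏ p ∈ (∏ j, x j).natAbs.primeFactors, p : ℕ) : ℝ) ≤ R) →
      (S.card : ℝ) ≤ C * R ^ θ * (1 + Real.log R) ^ e := by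
  classical
  obtain ⟨M, hM, hbez⟩ := bezN P n hn hP hlead h
  have hle : (∏ i, f i).natDegree ≤ ∑ i, d i :=
    (natDegree_prod_le _ _).trans (Finset.sum_le_sum fun i _ => hf i)
  obtain ⟨C, e, hC, hmain⟩ := hcnt M hM
  refine ⟨(2 * (M : ℝ) + 1) * C, e, by positivity, ?_⟩
  intro R hR S hS
  have hex : ∀ x ∈ S, ∃ s t g : ℤ, IsCoprime s t ∧ g ∣ (M : ℤ) ∧ g ≠ 0 ∧
      ∀ j, hom (P j) n s t = g * x j := by
    intro x hx
    obtain ⟨h1, h2, ⟨s, t, hst, h4⟩, -⟩ := hS x hx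
    -- Bezout for the entries
    have hspan : Ideal.span (Set.range x) = ⊤ := by
      obtain ⟨⟨g, hg⟩⟩ := IsPrincipalIdealRing.principal (Ideal.span (Set.range x))
      have hg' : Ideal.span (Set.range x) = Ideal.span {g} := hg
      rw [hg', Ideal.span_singleton_eq_top]
      refine h1 g fun j => ?_
      have : x j ∈ Ideal.span (Set.range x) := Ideal.subset_span ⟨j, rfl⟩
      rw [hg'] at this
      exact Ideal.mem_span_singleton.1 this
    have h1' : (1 : ℤ) ∈ Ideal.span (Set.range x) := by rw [hspan]; trivial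
    obtain ⟨u, hu⟩ := Ideal.mem_span_range_iff_exists_fun.1 h1'
    set g : ℤ := ∑ j, u j * hom (P j) n s t with hg
    have hgx : ∀ i, hom (P i) n s t = g * x i := by
      intro i
      rw [hg, sum_mul]
      calc hom (P i) n s t = (∑ j, u j * x j) * hom (P i) n s t := by rw [hu, one_mul]
        _ = ∑ j, u j * hom (P j) n s t * x i := by
            rw [sum_mul]
            refine sum_congr rfl fun j _ => ?_
            have := h4 i j
            linear_combination -(u j) * this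
    have h7 : g ∣ (M : ℤ) := hbez s t hst g (fun j => by rw [hgx j]; exact Dvd.intro _ rfl)
    refine ⟨s, t, g, hst, h7, ?_, hgx⟩
    rintro h0
    rw [h0] at h7
    have : (M : ℤ) = 0 := zero_dvd_iff.mp h7
    omega
  choose! s t g hst hgM hg0 hgP using hex
  let φ : (κ → ℤ) → ℤ × ℤ := fun q => (s q, t q)
  have hφ : ∀ y ∈ S.image φ, IsCoprime y.1 y.2 ∧
      hom (∏ k, f k) (∑ k, d k) y.1 y.2 ≠ 0 ∧
      (radp M (hom (∏ k, f k) (∑ k, d k) y.1 y.2).natAbs : ℝ) ≤ R := by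
    intro y hy
    obtain ⟨x, hx, rfl⟩ := mem_image.mp hy
    obtain ⟨h1, h2, -, h4⟩ := hS x hx
    have hmul := Pool.Agent.W505.VC.t_HOM.1
    have e0 := (hom_prod univ P (fun _ => n) (fun j _ => hP j) (s x) (t x)).2
    rw [sum_const, card_univ, smul_eq_mul] at e0
    have e1 : hom (∏ k, f k) (∑ k, d k) (s x) (t x) *
        hom G (Fintype.card κ * n - ∑ k, d k) (s x) (t x) =
        g x ^ (Fintype.card κ) * ∏ j, x j := by
      rw [← hmul _ _ _ _ hle (by omega : G.natDegree ≤ Fintype.card κ * n - ∑ k, d k), hG]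
      have e2 : ∑ k, d k + (Fintype.card κ * n - ∑ k, d k) = Fintype.card κ * n := by omega
      rw [e2, e0, prod_congr rfl fun j _ => hgP x hx j, prod_mul_distrib, prod_const, card_univ]
    have hne : g x ^ (Fintype.card κ) * ∏ j, x j ≠ 0 := mul_ne_zero (pow_ne_zero _ (hg0 x hx)) h2
    refine ⟨hst x hx, ?_, ?_⟩
    · intro h0
      change hom (∏ k, f k) (∑ k, d k) (s x) (t x) = 0 at h0
      rw [h0, zero_mul] at e1
      exact hne e1.symm
    · refine le_trans ?_ h4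
      exact_mod_cast radp_le_rad' h2 (hgM x hx) (Dvd.intro _ e1)
  have hcard := hmain R hR (S.image φ) hφ
  have hgle : ∀ q ∈ S, g q ∈ Icc (-(M : ℤ)) M := by
    intro q hq
    have := Int.le_of_dvd (by omega : (0 : ℤ) < M) ((abs_dvd _ _).mpr (hgM q hq))
    rw [mem_Icc]
    exact abs_le.mp this
  have hinj : S.card ≤ ((S.image φ) ×ˢ (Icc (-(M : ℤ)) M)).card := by
    refine Finset.card_le_card_of_injOn (fun q => (φ q, g q)) ?_ ?_
    · intro q hq
      have hq' : q ∈ S := hq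
      rw [mem_coe, mem_product]
      exact ⟨mem_image_of_mem _ hq', hgle q hq'⟩
    · intro q hq q' hq' heq
      have hq1 : q ∈ S := hq
      have hq2 : q' ∈ S := hq'
      simp only [Prod.mk.injEq, φ] at heq
      obtain ⟨⟨i1, i2⟩, i3⟩ := heq
      funext j
      have a1 := hgP q hq1 j
      have a2 := hgP q' hq2 j
      rw [i1, i2, i3, a2] at a1
      exact (mul_left_cancel₀ (hg0 q' hq2) a1).symm
  rw [card_product, Int.card_Icc] at hinj
  have h1 : (((M : ℤ) + 1 - -(M : ℤ)).toNat : ℝ) = 2 * (M : ℝ) + 1 := by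
    have : ((M : ℤ) + 1 - -(M : ℤ)).toNat = 2 * M + 1 := by omega
    rw [this]
    push_cast
    ring
  calc (S.card : ℝ) ≤ (((S.image φ).card * ((M : ℤ) + 1 - -(M : ℤ)).toNat : ℕ) : ℝ) := by
        exact_mod_cast hinj
    _ = ((S.image φ).card : ℝ) * (2 * (M : ℝ) + 1) := by rw [Nat.cast_mul, h1]
    _ ≤ (C * R ^ θ * (1 + Real.log R) ^ e) *
        (2 * (M : ℝ) + 1) := mul_le_mul_of_nonneg_right hcard (by positivity)
    _ = _ := by ring

theorem cnt_mixed {ι : Type} [Fintype ι] [DecidableEq ι] (f : ι → ℤ[X]) (d : ι → ℕ)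
    (hf : ∀ i, (f i).natDegree ≤ d i) (hd1 : ∀ i, 1 ≤ d i)
    (hsq : Squarefree ((∏ i, f i).map (Int.castRingHom ℚ)))
    (hdeg : ∑ i, d i ≤ (∏ i, f i).natDegree + 1)
    (h3 : 3 ≤ (univ.filter (fun k => d k = 1)).card) :
    Cnt f d ((2 : ℝ) / ((∑ k, wt (d k) : ℕ) : ℝ)) := by
  have hle : (∏ i, f i).natDegree ≤ ∑ i, d i :=
    (natDegree_prod_le _ _).trans (Finset.sum_le_sum fun i _ => hf i)
  exact fun m hm => mixed f d hf hd1 ⟨hsq, hle, hdeg⟩ h3 m hm

theorem cnt_blocks {ι β : Type} [Fintype ι] [DecidableEq ι] [Fintype β] [DecidableEq β] [Nonempty β]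
    (f : ι → ℤ[X]) (d : ι → ℕ) (hf : ∀ i, (f i).natDegree ≤ d i)
    (hsq : Squarefree ((∏ i, f i).map (Int.castRingHom ℚ)))
    (hdeg : ∑ i, d i ≤ (∏ i, f i).natDegree + 1)
    (B : β → Finset ι) (hB : ∀ b, 3 ≤ ∑ k ∈ B b, d k)
    (c : ℕ) (hc : ∀ k, (univ.filter (fun b => k ∈ B b)).card ≤ c) :
    Cnt f d ((c : ℝ) / Fintype.card β) := by
  have hle : (∏ i, f i).natDegree ≤ ∑ i, d i :=
    (natDegree_prod_le _ _).trans (Finset.sum_le_sum fun i _ => hf i)
  exact fun m hm => blocksF f d hf ⟨hsq, hle, hdeg⟩ B hB c hc m hm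

end Pool.Agent.X100.Nt
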