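import Pool.Agent.X100.Nt.Sq
import Pool.Agent.TH498.HF.T1

/-!
# Curves with pairwise coprime coordinates
-/

set_option autoImplicit false

namespace Pool.Agent.X100.Nt

open Finset Polynomial Pool.Agent.W4.CF Pool.Agent.W4.VC Pool.Agent.TH498.KB Pool.Agent.TH498.HF
open Pool.Agent.X100.Mx (wt mixed)

/-- the radical of a product with the primes dividing `M` removed -/
theorem radp_le_rad2 {M N : ℕ} {x y g k : ℤ} (hy : y ≠ 0) (hg : g ∣ (M : ℤ)) (hk : k ∣ (M : ℤ))
    (h : x ∣ k * (g ^ N * y)) :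
    radp M x.natAbs ≤ ∏ p ∈ y.natAbs.primeFactors, p := by
  unfold radp
  refine Finset.prod_le_prod_of_subset_of_one_le' ?_ fun p hp _ =>
    (Nat.prime_of_mem_primeFactors hp).one_le
  intro p hp
  obtain ⟨h1, h2⟩ := mem_filter.mp hp
  have hpp := Nat.prime_of_mem_primeFactors h1
  have hpx : (p : ℤ) ∣ x := Int.natCast_dvd.mpr (Nat.dvd_of_mem_primeFactors h1)
  have hpZ : Prime (p : ℤ) := Nat.prime_iff_prime_int.mp hpp
  refine Nat.mem_primeFactors.mpr ⟨hpp, ?_, Int.natAbs_ne_zero.mpr hy⟩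
  rcases hpZ.dvd_or_dvd (hpx.trans h) with h3 | h3
  · exact absurd (Int.natCast_dvd_natCast.mp (h3.trans hk)) h2
  rcases hpZ.dvd_or_dvd h3 with h3 | h3
  · exact absurd (Int.natCast_dvd_natCast.mp ((hpZ.dvd_of_dvd_pow h3).trans hg)) h2
  · exact Int.natCast_dvd.mp h3

/-- tuples on a rational curve, with a constant -/
theorem tuples2 {ι κ : Type} [Fintype ι] [DecidableEq ι] [Fintype κ] (P : κ → ℤ[X])
    (n : ℕ) (hn : 1 ≤ n) (hP : ∀ j, (P j).natDegree ≤ n) (hlead : ∃ j, (P j).natDegree = n)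
    (h : ∀ z : ℂ, ∃ j, aeval z (P j) ≠ 0)
    (f : ι → ℤ[X]) (d : ι → ℕ) (hf : ∀ i, (f i).natDegree ≤ d i) (G : ℤ[X]) (k : ℤ) (hk : k ≠ 0)
    (hG : (∏ i, f i) * G = C k * ∏ j, P j) (hGd : G.natDegree + ∑ i, d i ≤ Fintype.card κ * n)
    {θ : ℝ} (hcnt : Cnt f d θ) :
    ∃ (C : ℝ) (e : ℕ), 0 < C ∧ ∀ R : ℝ, 1 ≤ R → ∀ S : Finset (κ → ℤ),
      (∀ x ∈ S, (∀ g : ℤ, (∀ j, g ∣ x j) → IsUnit g) ∧ ∏ j, x j ≠ 0 ∧
        (∃ s t : ℤ, IsCoprime s t ∧ ∀ i j, x i * hom (P j) n s t = x j * hom (P i) n s t) ∧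
        ((∏ p ∈ (∏ j, x j).natAbs.primeFactors, p : ℕ) : ℝ) ≤ R) →
      (S.card : ℝ) ≤ C * R ^ θ * (1 + Real.log R) ^ e := by
  classical
  obtain ⟨M, hM, hbez⟩ := bezN P n hn hP hlead h
  have hle : (∏ i, f i).natDegree ≤ ∑ i, d i :=
    (natDegree_prod_le _ _).trans (Finset.sum_le_sum fun i _ => hf i)
  have hk1 : 1 ≤ k.natAbs := Nat.one_le_iff_ne_zero.2 (Int.natAbs_ne_zero.2 hk)
  obtain ⟨C, e, hC, hmain⟩ := hcnt (M * k.natAbs) (Nat.mul_pos hM hk1)
  refine ⟨(2 * (M : ℝ) + 1) * C, e, by positivity, ?_⟩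
  intro R hR S hS
  have hex : ∀ x ∈ S, ∃ s t g : ℤ, IsCoprime s t ∧ g ∣ (M : ℤ) ∧ g ≠ 0 ∧
      ∀ j, hom (P j) n s t = g * x j := by
    intro x hx
    obtain ⟨h1, h2, ⟨s, t, hst, h4⟩, -⟩ := hS x hx
    -- Bezout for the entries
    have hspan : Ideal.span (Set.range x) = ⊤ := by
      obtain ⟨⟨g, hg⟩⟩ := IsPrincipalIdealRing.principal (Ideal.span (Set.range x))
      have hg' : Ideal.span (Set.range x) = Ideal.span {g} := hg
      rw [hg', Ideal.span_singleton_eq_top]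
      refine h1 g fun j => ?_
      have : x j ∈ Ideal.span (Set.range x) := Ideal.subset_span ⟨j, rfl⟩
      rw [hg'] at this
      exact Ideal.mem_span_singleton.1 this
    have h1' : (1 : ℤ) ∈ Ideal.span (Set.range x) := by rw [hspan]; trivial
    obtain ⟨u, hu⟩ := Ideal.mem_span_range_iff_exists_fun.1 h1'
    set g : ℤ := ∑ j, u j * hom (P j) n s t with hg
    have hgx : ∀ i, hom (P i) n s t = g * x i := by
      intro i
      rw [hg, sum_mul]
      calc hom (P i) n s t = (∑ j, u j * x j) * hom (P i) n s t := by rw [hu, one_mul]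
        _ = ∑ j, u j * hom (P j) n s t * x i := by
            rw [sum_mul]
            refine sum_congr rfl fun j _ => ?_
            have := h4 i j
            linear_combination -(u j) * this
    have h7 : g ∣ (M : ℤ) := hbez s t hst g (fun j => by rw [hgx j]; exact Dvd.intro _ rfl)
    refine ⟨s, t, g, hst, h7, ?_, hgx⟩
    rintro h0
    rw [h0] at h7
    have : (M : ℤ) = 0 := zero_dvd_iff.mp h7
    omega
  choose! s t g hst hgM hg0 hgP using hex
  let φ : (κ → ℤ) → ℤ × ℤ := fun q => (s q, t q)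
  have hφ : ∀ y ∈ S.image φ, IsCoprime y.1 y.2 ∧
      hom (∏ k, f k) (∑ k, d k) y.1 y.2 ≠ 0 ∧
      (radp (M * k.natAbs) (hom (∏ k, f k) (∑ k, d k) y.1 y.2).natAbs : ℝ) ≤ R := by
    intro y hy
    obtain ⟨x, hx, rfl⟩ := mem_image.mp hy
    obtain ⟨h1, h2, -, h4⟩ := hS x hx
    have hmul := Pool.Agent.W505.VC.t_HOM.1
    have e0 := (hom_prod univ P (fun _ => n) (fun j _ => hP j) (s x) (t x)).2
    rw [sum_const, card_univ, smul_eq_mul] at e0
    have hPd : (∏ j, P j).natDegree ≤ Fintype.card κ * n := by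
      refine (natDegree_prod_le _ _).trans ((Finset.sum_le_sum fun j _ => hP j).trans ?_)
      rw [sum_const, card_univ, smul_eq_mul]
    have e3 : hom (Polynomial.C k * ∏ j, P j) (0 + Fintype.card κ * n) (s x) (t x) =
        k * hom (∏ j, P j) (Fintype.card κ * n) (s x) (t x) := by
      rw [hmul _ _ _ _ (by rw [natDegree_C]) hPd, hom_C, pow_zero, mul_one]
    rw [zero_add] at e3
    have e1 : hom (∏ k, f k) (∑ k, d k) (s x) (t x) *
        hom G (Fintype.card κ * n - ∑ k, d k) (s x) (t x) =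
        k * (g x ^ (Fintype.card κ) * ∏ j, x j) := by
      rw [← hmul _ _ _ _ hle (by omega : G.natDegree ≤ Fintype.card κ * n - ∑ k, d k), hG]
      have e2 : ∑ k, d k + (Fintype.card κ * n - ∑ k, d k) = Fintype.card κ * n := by omega
      rw [e2, e3, e0, prod_congr rfl fun j _ => hgP x hx j, prod_mul_distrib, prod_const, card_univ]
    have hne : k * (g x ^ (Fintype.card κ) * ∏ j, x j) ≠ 0 :=
      mul_ne_zero hk (mul_ne_zero (pow_ne_zero _ (hg0 x hx)) h2)
    refine ⟨hst x hx, ?_, ?_⟩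
    · intro h0
      change hom (∏ k, f k) (∑ k, d k) (s x) (t x) = 0 at h0
      rw [h0, zero_mul] at e1
      exact hne e1.symm
    · refine le_trans ?_ h4
      have hgM' : g x ∣ ((M * k.natAbs : ℕ) : ℤ) := by
        push_cast
        exact (hgM x hx).mul_right _
      have hkM' : k ∣ ((M * k.natAbs : ℕ) : ℤ) := by
        push_cast
        exact ((dvd_abs k k).2 dvd_rfl).mul_left _
      exact_mod_cast radp_le_rad2 h2 hgM' hkM' (Dvd.intro _ e1)
  have hcard := hmain R hR (S.image φ) hφ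
  have hgle : ∀ q ∈ S, g q ∈ Icc (-(M : ℤ)) M := by
    intro q hq
    have := Int.le_of_dvd (by omega : (0 : ℤ) < M) ((abs_dvd _ _).mpr (hgM q hq))
    rw [mem_Icc]
    exact abs_le.mp this
  have hinj : S.card ≤ ((S.image φ) ×ˢ (Icc (-(M : ℤ)) M)).card := by
    refine Finset.card_le_card_of_injOn (fun q => (φ q, g q)) ?_ ?_
    · intro q hq
      have hq' : q ∈ S := hq
      rw [mem_coe, mem_product]
      exact ⟨mem_image_of_mem _ hq', hgle q hq'⟩
    · intro q hq q' hq' heq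
      have hq1 : q ∈ S := hq
      have hq2 : q' ∈ S := hq'
      simp only [Prod.mk.injEq, φ] at heq
      obtain ⟨⟨i1, i2⟩, i3⟩ := heq
      funext j
      have a1 := hgP q hq1 j
      have a2 := hgP q' hq2 j
      rw [i1, i2, i3, a2] at a1
      exact (mul_left_cancel₀ (hg0 q' hq2) a1).symm
  rw [card_product, Int.card_Icc] at hinj
  have h1 : (((M : ℤ) + 1 - -(M : ℤ)).toNat : ℝ) = 2 * (M : ℝ) + 1 := by
    have : ((M : ℤ) + 1 - -(M : ℤ)).toNat = 2 * M + 1 := by omega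
    rw [this]
    push_cast
    ring
  calc (S.card : ℝ) ≤ (((S.image φ).card * ((M : ℤ) + 1 - -(M : ℤ)).toNat : ℕ) : ℝ) := by
        exact_mod_cast hinj
    _ = ((S.image φ).card : ℝ) * (2 * (M : ℝ) + 1) := by rw [Nat.cast_mul, h1]
    _ ≤ (C * R ^ θ * (1 + Real.log R) ^ e) *
        (2 * (M : ℝ) + 1) := mul_le_mul_of_nonneg_right hcard (by positivity)
    _ = _ := by ring

/-- the number of the distinct zeros on the projective line of the form of degree `D` -/
noncomputable def nz (f : ℤ[X]) (D : ℕ) : ℕ := cz f + if f.natDegree = D then 0 else 1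

theorem aeval_mapQ (z : ℂ) (f : ℤ[X]) :
    aeval z (f.map (Int.castRingHom ℚ)) = aeval z f := by
  have : (Int.castRingHom ℚ) = algebraMap ℤ ℚ := rfl
  rw [this, aeval_map_algebraMap]

/-- pairwise coprime coordinates: the factors -/
theorem coprime_factors {n : ℕ} (D : ℕ) (P : Fin n → ℤ[X])
    (hP : ∀ j, (P j).natDegree ≤ D) (hP0 : ∀ j, P j ≠ 0)
    (hinf : ∀ i j, i ≠ j → (P i).natDegree = D ∨ (P j).natDegree = D)
    (hcop : ∀ i j, i ≠ j → ∀ z : ℂ, aeval z (P i) ≠ 0 ∨ aeval z (P j) ≠ 0) :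
    ∃ (f : Fin n → ℤ[X]) (G : ℤ[X]) (k : ℤ), k ≠ 0 ∧
      (∀ i, (f i).natDegree ≤ nz (P i) D) ∧
      Squarefree ((∏ i, f i).map (Int.castRingHom ℚ)) ∧
      ∑ i, nz (P i) D ≤ (∏ i, f i).natDegree + 1 ∧
      (∏ i, f i) * G = C k * ∏ j, P j ∧ G.natDegree + ∑ i, nz (P i) D ≤ n * D := by
  classical
  choose f G c hc hf0 hsq hfG hdeg hcz hdvd using fun j => sqpart (P j) (hP0 j)
  refine ⟨f, ∏ j, G j, ∏ j, c j, prod_ne_zero_iff.2 fun j _ => hc j, ?_, ?_, ?_, ?_, ?_⟩
  · intro i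
    rw [hcz i]
    exact Nat.le_add_right _ _
  · rw [Polynomial.map_prod]
    refine Finset.squarefree_prod_of_pairwise_isCoprime ?_ fun i _ => hsq i
    intro i _ j _ hij
    show IsRelPrime ((f i).map (Int.castRingHom ℚ)) ((f j).map (Int.castRingHom ℚ))
    refine IsCoprime.isRelPrime ?_
    rw [isCoprime_iff_aeval_ne_zero_of_isAlgClosed ℚ ℂ]
    intro z
    have h1 : ∀ l, aeval z (P l) ≠ 0 → aeval z ((f l).map (Int.castRingHom ℚ)) ≠ 0 := by
      intro l hl h0
      apply hl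
      rw [← aeval_mapQ]
      obtain ⟨w, hw⟩ := hdvd l
      rw [hw, map_mul, h0, zero_mul]
    rcases hcop i j hij z with h2 | h2
    · exact Or.inl (h1 i h2)
    · exact Or.inr (h1 j h2)
  · rw [natDegree_prod _ _ fun i _ => hf0 i]
    unfold nz
    rw [sum_add_distrib]
    refine add_le_add (le_of_eq (sum_congr rfl fun i _ => (hcz i).symm)) ?_
    have h1 : ∑ i, (if (P i).natDegree = D then 0 else 1) =
        (univ.filter (fun i => ¬ (P i).natDegree = D)).card := by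
      rw [card_filter]
      refine sum_congr rfl fun i _ => ?_
      split_ifs <;> rfl
    rw [h1, card_le_one]
    intro i hi j hj
    rw [mem_filter] at hi hj
    by_contra hij
    rcases hinf i j hij with h2 | h2
    · exact hi.2 h2
    · exact hj.2 h2
  · rw [← prod_mul_distrib, prod_congr rfl fun j _ => hfG j, prod_mul_distrib, map_prod]
  · calc (∏ j, G j).natDegree + ∑ i, nz (P i) D ≤ ∑ j, (G j).natDegree + ∑ i, nz (P i) D :=
          Nat.add_le_add_right (natDegree_prod_le _ _) _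
      _ = ∑ j, ((G j).natDegree + nz (P j) D) := by rw [sum_add_distrib]
      _ ≤ ∑ _j : Fin n, D := by
          refine sum_le_sum fun j _ => ?_
          unfold nz
          have h1 := hdeg j
          have h2 := hcz j
          have h3 := hP j
          split_ifs with h4 <;> omega
      _ = n * D := by rw [sum_const, card_univ, Fintype.card_fin, smul_eq_mul]

/-- **tuples on curves with pairwise coprime coordinates** -/
theorem cop_tuples {n : ℕ} (hn : 2 ≤ n) (D : ℕ) (hD : 1 ≤ D) (P : Fin n → ℤ[X])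
    (hP : ∀ j, (P j).natDegree ≤ D) (hP0 : ∀ j, P j ≠ 0)
    (hinf : ∀ i j, i ≠ j → (P i).natDegree = D ∨ (P j).natDegree = D)
    (hcop : ∀ i j, i ≠ j → ∀ z : ℂ, aeval z (P i) ≠ 0 ∨ aeval z (P j) ≠ 0)
    (g c : ℕ) (hg : 1 ≤ g) (B : Fin g → Finset (Fin n)) (hB : ∀ b, 3 ≤ ∑ i ∈ B b, nz (P i) D)
    (hc : ∀ i, (univ.filter (fun b => i ∈ B b)).card ≤ c) :
    ∃ (C : ℝ) (e : ℕ), 0 < C ∧ ∀ R : ℝ, 1 ≤ R → ∀ S : Set (Fin n → ℤ),
      (∀ x ∈ S, (∀ g : ℤ, (∀ j, g ∣ x j) → IsUnit g) ∧ ∏ j, x j ≠ 0 ∧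
        (∃ s t : ℤ, IsCoprime s t ∧ ∀ i j, x i * hom (P j) D s t = x j * hom (P i) D s t) ∧
        ((∏ p ∈ (∏ j, x j).natAbs.primeFactors, p : ℕ) : ℝ) ≤ R) →
      S.Finite ∧ (S.ncard : ℝ) ≤ C * R ^ ((c : ℝ) / g) * (1 + Real.log R) ^ e := by
  obtain ⟨f, G, k, hk, h1, h2, h3, h4, h5⟩ := coprime_factors D P hP hP0 hinf hcop
  have hne : Nonempty (Fin g) := Fin.pos_iff_nonempty.1 hg
  have hcnt := cnt_blocks (β := Fin g) f (fun i => nz (P i) D) h1 h2 h3 B hB c hc
  rw [Fintype.card_fin] at hcnt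
  have i01 : (⟨0, by omega⟩ : Fin n) ≠ ⟨1, by omega⟩ := by
    intro h
    have := congrArg Fin.val h
    simp at this
  obtain ⟨C, e, hC, H⟩ := tuples2 P D hD hP (by
      rcases hinf _ _ i01 with h | h
      · exact ⟨_, h⟩
      · exact ⟨_, h⟩) (fun z => by
      rcases hcop _ _ i01 z with h | h
      · exact ⟨_, h⟩
      · exact ⟨_, h⟩) f _ h1 G k hk h4 (by rw [Fintype.card_fin]; exact h5) hcnt
  refine ⟨C, e, hC, fun R hR S hS => ?_⟩
  exact fin_of_bound S _ fun s hs => H R hR s fun x hx => hS x (hs hx)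

/-- cyclic blocks -/
theorem cyclic {n q : ℕ} (hn : 1 ≤ n) (hq : q ≤ n) : ∃ B : Fin n → Finset (Fin n),
    (∀ b, (B b).card = q) ∧ ∀ i, (univ.filter (fun b => i ∈ B b)).card ≤ q := by
  have hne : NeZero n := ⟨by omega⟩
  have hcard : (univ.filter (fun v : Fin n => (v : ℕ) < q)).card = q := by
    have h1 := Fin.card_filter_val_lt (m := q) (n := n)
    rw [h1]
    exact min_eq_right hq
  refine ⟨fun b => univ.filter (fun j => ((j - b : Fin n) : ℕ) < q), fun b => ?_, fun i => ?_⟩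
  · refine Eq.trans ?_ hcard
    refine Finset.card_bij (fun j _ => j - b) ?_ ?_ ?_
    · intro j hj
      rw [mem_filter] at hj ⊢
      exact ⟨mem_univ _, hj.2⟩
    · intro j _ j' _ h
      exact sub_left_injective h
    · intro v hv
      rw [mem_filter] at hv
      exact ⟨v + b, by rw [mem_filter]; exact ⟨mem_univ _, by rw [add_sub_cancel_right]; exact hv.2⟩,
        by rw [add_sub_cancel_right]⟩
  · refine le_trans ?_ hcard.le
    refine Finset.card_le_card_of_injOn (fun b => i - b) ?_ ?_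
    · intro b hb
      rw [mem_coe, mem_filter] at hb
      rw [mem_coe, mem_filter]
      exact ⟨mem_univ _, (mem_filter.1 hb.2).2⟩
    · intro b _ b' _ h
      exact sub_right_injective h

end Pool.Agent.X100.Nt
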