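import Pool.Agent.X100.Nt.Core
import Pool.Agent.TH498.HF.T1

/-!
# Tuples on rational curves: the two bounds
-/

set_option autoImplicit false

namespace Pool.Agent.X100.Nt

open Finset Polynomial Pool.Agent.W4.CF Pool.Agent.W4.VC Pool.Agent.TH498.KB Pool.Agent.TH498.HF
open Pool.Agent.X100.Mx (wt mixed)

/-- the sets of tuples are finite, with the bound for their cardinality -/
theorem tuples_set {m n : ℕ} (P : Fin n → ℤ[X])
    (D : ℕ) (hn : 1 ≤ D) (hP : ∀ j, (P j).natDegree ≤ D) (hlead : ∃ j, (P j).natDegree = D)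
    (h : ∀ z : ℂ, ∃ j, aeval z (P j) ≠ 0)
    (f : Fin m → ℤ[X]) (d : Fin m → ℕ) (hf : ∀ i, (f i).natDegree ≤ d i) (G : ℤ[X])
    (hG : (∏ i, f i) * G = ∏ j, P j) (hGd : G.natDegree + ∑ i, d i ≤ n * D)
    {θ : ℝ} (hcnt : Cnt f d θ) :
    ∃ (C : ℝ) (e : ℕ), 0 < C ∧ ∀ R : ℝ, 1 ≤ R → ∀ S : Set (Fin n → ℤ),
      (∀ x ∈ S, (∀ g : ℤ, (∀ j, g ∣ x j) → IsUnit g) ∧ ∏ j, x j ≠ 0 ∧
        (∃ s t : ℤ, IsCoprime s t ∧ ∀ i j, x i * hom (P j) D s t = x j * hom (P i) D s t) ∧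
        ((∏ p ∈ (∏ j, x j).natAbs.primeFactors, p : ℕ) : ℝ) ≤ R) →
      S.Finite ∧ (S.ncard : ℝ) ≤ C * R ^ θ * (1 + Real.log R) ^ e := by
  obtain ⟨C, e, hC, H⟩ := tuples P D hn hP hlead h f d hf G hG
    (by rw [Fintype.card_fin]; exact hGd) hcnt
  refine ⟨C, e, hC, fun R hR S hS => ?_⟩
  exact fin_of_bound S _ fun s hs => H R hR s fun x hx => hS x (hs hx)

end Pool.Agent.X100.Nt
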