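import Pool.Agent.X100.Nt.Core

/-!
# Squarefree parts of integral polynomials; curves with pairwise coprime coordinates
-/

set_option autoImplicit false

namespace Pool.Agent.X100.Nt

open Finset Polynomial Pool.Agent.W4.CF Pool.Agent.W4.VC Pool.Agent.TH498.KB Pool.Agent.TH498.HF

/-- the number of the distinct complex zeros of `f` -/
noncomputable def cz (f : ℤ[X]) : ℕ := (f.map (Int.castRingHom ℂ)).roots.toFinset.card

theorem map_QC (f : ℤ[X]) : (f.map (Int.castRingHom ℚ)).map (algebraMap ℚ ℂ) =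
    f.map (Int.castRingHom ℂ) := by
  rw [Polynomial.map_map]
  congr 1

theorem sqpart (P : ℤ[X]) (hP : P ≠ 0) : ∃ (f G : ℤ[X]) (c : ℤ), c ≠ 0 ∧ f ≠ 0 ∧
    Squarefree (f.map (Int.castRingHom ℚ)) ∧ f * G = C c * P ∧
    f.natDegree + G.natDegree = P.natDegree ∧ f.natDegree = cz P ∧
    f.map (Int.castRingHom ℚ) ∣ P.map (Int.castRingHom ℚ) := by
  classical
  have hinj : Function.Injective (Int.castRingHom ℚ) := Int.cast_injective
  set p : ℚ[X] := P.map (Int.castRingHom ℚ) with hp
  have hp0 : p ≠ 0 := (Polynomial.map_ne_zero_iff hinj).2 hP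
  set r : ℚ[X] := UniqueFactorizationMonoid.radical p with hr
  have hr0 : r ≠ 0 := UniqueFactorizationMonoid.radical_ne_zero
  obtain ⟨h, hh⟩ : r ∣ p := UniqueFactorizationMonoid.radical_dvd_self
  obtain ⟨N1, f, hN1, hf⟩ := clear r
  obtain ⟨N2, G, hN2, hG⟩ := clear h
  have hN1' : ((N1 : ℤ) : ℚ) ≠ 0 := by exact_mod_cast hN1
  have hN2' : ((N2 : ℤ) : ℚ) ≠ 0 := by exact_mod_cast hN2
  have hu : IsUnit (C ((N1 : ℤ) : ℚ)) := isUnit_C.2 hN1'.isUnit
  have hass : Associated r (f.map (Int.castRingHom ℚ)) := by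
    rw [hf]
    exact (associated_isUnit_mul_right_iff hu).2 (Associated.refl r)
  have hfd : f.natDegree = r.natDegree := by
    rw [← natDegree_map_eq_of_injective hinj f, hf, natDegree_C_mul hN1']
  have hGd : G.natDegree = h.natDegree := by
    rw [← natDegree_map_eq_of_injective hinj G, hG, natDegree_C_mul hN2']
  have hh0 : h ≠ 0 := by
    rintro rfl
    rw [mul_zero] at hh
    exact hp0 hh
  have hid : f * G = C (N1 * N2) * P := by
    apply Polynomial.map_injective (Int.castRingHom ℚ) hinj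
    rw [Polynomial.map_mul, Polynomial.map_mul, hf, hG, ← hp, hh, map_C, map_mul, C_mul]
    simp only [eq_intCast]
    ring
  have hdeg : f.natDegree + G.natDegree = P.natDegree := by
    rw [hfd, hGd, ← natDegree_mul hr0 hh0, ← hh, hp, natDegree_map_eq_of_injective hinj]
  have hsq : Squarefree r := UniqueFactorizationMonoid.squarefree_radical
  refine ⟨f, G, N1 * N2, mul_ne_zero hN1 hN2, ?_, hass.squarefree_iff.1 hsq, hid, hdeg, ?_, ?_⟩
  · rintro rfl
    rw [Polynomial.map_zero] at hf
    exact (mul_ne_zero (C_ne_zero.2 hN1') hr0) hf.symm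
  · -- the number of the complex zeros
    have hsep : (r.map (algebraMap ℚ ℂ)).Separable :=
      (PerfectField.separable_iff_squarefree.2 hsq).map
    have h1 : (r.map (algebraMap ℚ ℂ)).roots.card = r.natDegree := by
      rw [IsAlgClosed.card_roots_eq_natDegree, natDegree_map]
    have h2 : (r.map (algebraMap ℚ ℂ)).roots.toFinset.card = r.natDegree := by
      rw [Multiset.toFinset_card_of_nodup (nodup_roots hsep), h1]
    rw [hfd, ← h2]
    unfold cz
    congr 1
    have hrC : r.map (algebraMap ℚ ℂ) ≠ 0 := (Polynomial.map_ne_zero_iff (algebraMap ℚ ℂ).injective).2 hr0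
    have hpC : p.map (algebraMap ℚ ℂ) ≠ 0 := (Polynomial.map_ne_zero_iff (algebraMap ℚ ℂ).injective).2 hp0
    ext z
    rw [Multiset.mem_toFinset, Multiset.mem_toFinset, ← map_QC, ← hp, mem_roots hrC, mem_roots hpC]
    constructor
    · intro hz
      rw [IsRoot.def] at hz ⊢
      rw [hh, Polynomial.map_mul, eval_mul, hz, zero_mul]
    · intro hz
      obtain ⟨N, k, hk⟩ := UniqueFactorizationMonoid.exists_dvd_radical_self_pow hp0
      rw [IsRoot.def] at hz ⊢
      have h3 : (r ^ N).map (algebraMap ℚ ℂ) = p.map (algebraMap ℚ ℂ) * k.map (algebraMap ℚ ℂ) := by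
        rw [← Polynomial.map_mul, ← hk]
      have h4 := congrArg (eval z) h3
      rw [Polynomial.map_pow, eval_pow, eval_mul, hz, zero_mul] at h4
      by_contra hne
      exact pow_ne_zero N hne h4
  · rw [hf]
    exact ((hu.mul_left_dvd).2 ⟨h, hh⟩)

end Pool.Agent.X100.Nt
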